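import Pool.Agent.Helper42.SG.GoalsB
import Pool.Agent.Helper29.BL.PS
import Mathlib.AlgebraicGeometry.EllipticCurve.Affine.AddSubMap

/-!
Packet SGB-EUTS (MP_a41896_nt): lower bound for the maximum of the three forms `U, T, S`.
-/

set_option autoImplicit false

open MvPolynomial

namespace Pool.Agent.Helper87.SGB

open WeierstrassCurve Height
open Pool.Agent.Helper29.BL Pool.Agent.Helper92.Ru Pool.Agent.Helper42.SG

noncomputable section

section basic

variable {K : Type} [Field K]

lemma abs_sum_le (v : AbsoluteValue K ℝ) {ι : Type*} (s : Finset ι) (f : ι → K) (M : ℝ)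
    (hM : 0 ≤ M) (h : ∀ i ∈ s, v (f i) ≤ M) :
    v (∑ i ∈ s, f i) ≤ cst v ((s.card : ℝ) + 1) * M := by
  classical
  by_cases hv : IsNonarchimedean v
  · rw [cst_of_nonarch hv, one_mul]
    induction s using Finset.induction_on with
    | empty => simpa using hM
    | insert i s hi ih =>
      rw [Finset.sum_insert hi]
      refine (hv _ _).trans (max_le (h i (Finset.mem_insert_self i s)) ?_)
      exact ih fun j hj => h j (Finset.mem_insert_of_mem hj)
  · rw [cst_of_not_nonarch hv]
    calc v (∑ i ∈ s, f i) ≤ ∑ i ∈ s, v (f i) := v.sum_le _ _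
      _ ≤ ∑ _i ∈ s, M := Finset.sum_le_sum h
      _ = (s.card : ℝ) * M := by rw [Finset.sum_const, nsmul_eq_mul]
      _ ≤ ((s.card : ℝ) + 1) * M := by nlinarith

/-- the constant of a form. -/
def cP (P : MvPolynomial (Fin 3) K) (v : AbsoluteValue K ℝ) : ℝ :=
  cst v ((P.support.card : ℝ) + 1) * ∏ m ∈ P.support, Mv v (P.coeff m)

lemma one_le_prod_Mv (P : MvPolynomial (Fin 3) K) (v : AbsoluteValue K ℝ)
    (s : Finset (Fin 3 →₀ ℕ)) : 1 ≤ ∏ m ∈ s, Mv v (P.coeff m) := by
  classical
  induction s using Finset.induction_on with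
  | empty => simp
  | insert i s hi ih =>
    rw [Finset.prod_insert hi]
    exact one_le_mul_of_one_le_of_one_le (one_le_Mv _ _) ih

lemma Mv_le_prod (P : MvPolynomial (Fin 3) K) (v : AbsoluteValue K ℝ)
    (s : Finset (Fin 3 →₀ ℕ)) (m : Fin 3 →₀ ℕ) (hm : m ∈ s) :
    Mv v (P.coeff m) ≤ ∏ m ∈ s, Mv v (P.coeff m) := by
  classical
  rw [← Finset.mul_prod_erase s _ hm]
  have h := one_le_prod_Mv P v (s.erase m)
  have h2 := Mv_pos v (P.coeff m)
  nlinarith

lemma one_le_cP (P : MvPolynomial (Fin 3) K) (v : AbsoluteValue K ℝ) : 1 ≤ cP P v := by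
  unfold cP
  refine one_le_mul_of_one_le_of_one_le (one_le_cst v ?_) (one_le_prod_Mv P v _)
  have : (0 : ℝ) ≤ P.support.card := Nat.cast_nonneg _
  linarith

lemma eval_le (P : MvPolynomial (Fin 3) K) (hP : P.IsHomogeneous 2) (v : AbsoluteValue K ℝ)
    (x : Fin 3 → K) (X : ℝ) (hX : ∀ i, v (x i) ≤ X) : v (eval x P) ≤ cP P v * X ^ 2 := by
  have hX0 : 0 ≤ X := (v.nonneg _).trans (hX 0)
  rw [eval_eq']
  unfold cP
  rw [mul_assoc]
  refine abs_sum_le v _ _ _ (mul_nonneg (zero_le_one.trans (one_le_prod_Mv P v _))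
    (pow_nonneg hX0 _)) ?_
  intro m hm
  have hdeg : ∑ i, m i = 2 := by
    have h := hP (mem_support_iff.1 hm)
    rw [← h, Finsupp.weight_apply, Finsupp.sum_fintype]
    · refine Finset.sum_congr rfl fun i _ => ?_
      simp
    · intro i
      simp
  rw [v.map_mul]
  have h1 : v (∏ i, x i ^ m i) ≤ X ^ 2 := by
    rw [map_prod]
    calc ∏ i, v (x i ^ m i) ≤ ∏ i, X ^ m i := by
          refine Finset.prod_le_prod (fun i _ => v.nonneg _) fun i _ => ?_
          rw [v.map_pow]
          exact pow_le_pow_left₀ (v.nonneg _) (hX i) _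
      _ = X ^ 2 := by rw [Finset.prod_pow_eq_pow_sum, hdeg]
  have h2 : v (P.coeff m) ≤ ∏ m ∈ P.support, Mv v (P.coeff m) :=
    (le_max_right _ _).trans (Mv_le_prod P v _ m hm)
  exact mul_le_mul h2 h1 (v.nonneg _) (zero_le_one.trans (one_le_prod_Mv P v _))

/-- the elementary inequality. -/
lemma elem (v : AbsoluteValue K ℝ) (c t z : K) (X : ℝ) (h1 : v (t * c) ≤ X)
    (h2 : v (t + c * z) ≤ X) (h3 : v z ≤ X) : max (v t) (v z) * Mv v c ≤ cst v 2 * X := by
  have hX0 : 0 ≤ X := (v.nonneg _).trans h3
  have hk1 : 1 ≤ cst v 2 := one_le_cst v (by norm_num)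
  have hprod : v t * v (c * z) ≤ X * X := by
    have e1 : v t * v (c * z) = v (t * c) * v z := by
      rw [v.map_mul, v.map_mul]
      ring
    rw [e1]
    exact mul_le_mul h1 h3 (v.nonneg _) hX0
  have hz0 := v.nonneg (c * z)
  have ht0 := v.nonneg t
  have hkX : X ≤ cst v 2 * X := by nlinarith
  have hAB : v t ≤ cst v 2 * X ∧ v (c * z) ≤ cst v 2 * X := by
    by_cases hv : IsNonarchimedean v
    · rw [cst_of_nonarch hv, one_mul]
      have ht : v t ≤ max (v (t + c * z)) (v (c * z)) := by
        have := hv (t + c * z) (-(c * z))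
        rwa [add_neg_cancel_right, v.map_neg] at this
      have hc : v (c * z) ≤ max (v (t + c * z)) (v t) := by
        have := hv (t + c * z) (-t)
        rwa [v.map_neg, show t + c * z + -t = c * z by ring] at this
      constructor
      · by_contra hcon
        push Not at hcon
        have h5 : v t ≤ v (c * z) := by
          rcases le_max_iff.1 ht with h | h
          · linarith
          · exact h
        nlinarith
      · by_contra hcon
        push Not at hcon
        have h5 : v (c * z) ≤ v t := by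
          rcases le_max_iff.1 hc with h | h
          · linarith
          · exact h
        nlinarith
    · rw [cst_of_not_nonarch hv]
      have ht : v t ≤ v (t + c * z) + v (c * z) := by
        have := v.sub_le_add (t + c * z) (c * z)
        rwa [add_sub_cancel_right] at this
      have hc : v (c * z) ≤ v (t + c * z) + v t := by
        have := v.sub_le_add (t + c * z) t
        rwa [add_sub_cancel_left] at this
      constructor
      · by_contra hcon
        push Not at hcon
        have h5 : X < v (c * z) := by linarith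
        nlinarith
      · by_contra hcon
        push Not at hcon
        have h5 : X < v t := by linarith
        nlinarith
  obtain ⟨hA, hB⟩ := hAB
  have hcz : v z * v c ≤ cst v 2 * X := by
    rw [v.map_mul] at hB
    linarith [mul_comm (v z) (v c)]
  have htc : v t * v c ≤ cst v 2 * X := by
    rw [v.map_mul] at h1
    linarith
  unfold Mv
  rcases max_choice (v t) (v z) with e1 | e1 <;> rcases max_choice 1 (v c) with e2 | e2 <;>
    rw [e1, e2]
  · linarith
  · exact htc
  · linarith
  · exact hcz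

end basic

lemma FS_cP {K : Type} [Field K] [AdmissibleAbsValues K] (P : MvPolynomial (Fin 3) K) :
    FS fun v => Real.log (cP P v) := by
  have h1 : FS (K := K) fun v => Real.log (cst v ((P.support.card : ℝ) + 1))
      + ∑ m ∈ P.support, Real.log (Mv v (P.coeff m)) :=
    (FS_log_cst _).add (FS.sum _ fun m _ => FS_log_Mv _)
  refine h1.mono fun v _ h => ?_
  have hc : cst v ((P.support.card : ℝ) + 1) ≠ 0 :=
    (cst_pos v (by have : (0 : ℝ) ≤ P.support.card := Nat.cast_nonneg _
                   linarith)).ne'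
  unfold cP
  rw [Real.log_mul hc (zero_lt_one.trans_le (one_le_prod_Mv P v _)).ne',
    Real.log_prod fun m _ => (Mv_pos v _).ne']
  exact h

theorem euts : EUTS := by
  intro K _ _ W _
  let P : Fin 3 × Fin 3 → MvPolynomial (Fin 3) K := fun ij =>
    C (↑W.Δ'⁻¹ : K) * addSubMapCoeff W ij
  have hP : ∀ ij, (P ij).IsHomogeneous 2 := fun ij =>
    (isHomogeneous_addSubMapCoeff W ij).C_mul ↑W.Δ'⁻¹
  have hprod1 : ∀ v : AbsoluteValue K ℝ, 1 ≤ ∏ ij, cP (P ij) v := by
    intro v
    refine Finset.prod_induction _ (fun r : ℝ => 1 ≤ r) (fun a b ha hb =>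
      one_le_mul_of_one_le_of_one_le ha hb) le_rfl fun ij _ => one_le_cP _ v
  have hle : ∀ (v : AbsoluteValue K ℝ) (ij : Fin 3 × Fin 3),
      cP (P ij) v ≤ ∏ ij, cP (P ij) v := by
    intro v ij
    rw [← Finset.mul_prod_erase Finset.univ _ (Finset.mem_univ ij)]
    have h1 : 1 ≤ ∏ x ∈ Finset.univ.erase ij, cP (P x) v :=
      Finset.prod_induction _ (fun r : ℝ => 1 ≤ r) (fun a b ha hb =>
        one_le_mul_of_one_le_of_one_le ha hb) le_rfl fun ij _ => one_le_cP _ v
    have h2 := one_le_cP (P ij) v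
    nlinarith
  refine ⟨fun v => cst v 2 ^ 2 * (cst v 4 * ∏ ij, cP (P ij) v), ⟨?_, ?_⟩, ?_⟩
  · intro v
    refine one_le_mul_of_one_le_of_one_le (one_le_pow₀ (one_le_cst v (by norm_num))) ?_
    exact one_le_mul_of_one_le_of_one_le (one_le_cst v (by norm_num)) (hprod1 v)
  · have h1 : FS (K := K) fun v => (2 * Real.log (cst v 2)) +
        (Real.log (cst v 4) + ∑ ij, Real.log (cP (P ij) v)) :=
      ((FS_log_cst _).const_mul 2).add ((FS_log_cst _).add (FS.sum _ fun ij _ => FS_cP _))
    refine h1.mono fun v _ h => ?_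
    have hc2 : cst v 2 ^ 2 ≠ 0 := (pow_pos (cst_pos v (by norm_num)) _).ne'
    have hc4 : cst v 4 ≠ 0 := (cst_pos v (by norm_num)).ne'
    have hp : ∏ ij, cP (P ij) v ≠ 0 := (zero_lt_one.trans_le (hprod1 v)).ne'
    rw [Real.log_mul hc2 (mul_ne_zero hc4 hp), Real.log_pow, Real.log_mul hc4 hp,
      Real.log_prod fun ij _ => (zero_lt_one.trans_le (one_le_cP (P ij) v)).ne']
    exact_mod_cast h
  · intro v c t z
    let x : Fin 3 → K := ![t * c, t + c * z, z]
    set X : ℝ := max (v (x 0)) (max (v (x 1)) (v (x 2))) with hXdef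
    set Y : ℝ := max (v (Uh c t z)) (max (v (Th W c t z)) (v (Sh W c t z))) with hYdef
    have hX0 : 0 ≤ X := (v.nonneg _).trans (le_max_left _ _)
    have hY0 : 0 ≤ Y := (v.nonneg _).trans (le_max_left _ _)
    have hxX : ∀ i, v (x i) ≤ X := by
      intro i
      fin_cases i
      · exact le_max_left _ _
      · exact (le_max_left _ _).trans (le_max_right _ _)
      · exact (le_max_right _ _).trans (le_max_right _ _)
    have hadd : ∀ j, v (eval x (addSubMap W j)) ≤ Y := by
      intro j
      fin_cases j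
      · have e : eval x (addSubMap W 0) = Sh W c t z := by
          simp [addSubMap, Sh, x]
          ring
        exact (le_of_eq (congrArg v e)).trans ((le_max_right _ _).trans (le_max_right _ _))
      · have e : eval x (addSubMap W 1) = Th W c t z := by
          simp [addSubMap, Th, x]
          ring
        exact (le_of_eq (congrArg v e)).trans ((le_max_left _ _).trans (le_max_right _ _))
      · have e : eval x (addSubMap W 2) = Uh c t z := by
          simp [addSubMap, Uh, x]
          ring
        exact (le_of_eq (congrArg v e)).trans (le_max_left _ _)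
    set B1 : ℝ := cst v 4 * ∏ ij, cP (P ij) v with hB1
    have hB10 : 0 < B1 := mul_pos (cst_pos v (by norm_num)) (zero_lt_one.trans_le (hprod1 v))
    have hi : ∀ i, v (x i) ^ 4 ≤ B1 * (X ^ 2 * Y) := by
      intro i
      rw [← v.map_pow, ← addSubMapCoeff_condition W x i]
      have h := abs_sum_le v (Finset.univ : Finset (Fin 3))
        (fun j => (C (↑W.Δ'⁻¹ : K) * addSubMapCoeff W (i, j)).eval x * (addSubMap W j).eval x)
        ((∏ ij, cP (P ij) v) * (X ^ 2 * Y))
        (mul_nonneg (zero_le_one.trans (hprod1 v)) (mul_nonneg (pow_nonneg hX0 _) hY0)) ?_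
      · refine h.trans (le_of_eq ?_)
        rw [hB1, Finset.card_univ, Fintype.card_fin]
        norm_num
        ring
      · intro j _
        rw [v.map_mul, ← mul_assoc]
        refine mul_le_mul ?_ (hadd j) (v.nonneg _)
          (mul_nonneg (zero_le_one.trans (hprod1 v)) (pow_nonneg hX0 _))
        refine (eval_le (P (i, j)) (hP (i, j)) v x X hxX).trans ?_
        exact mul_le_mul_of_nonneg_right (hle v (i, j)) (pow_nonneg hX0 _)
    have hX4 : X ^ 4 ≤ B1 * (X ^ 2 * Y) := by
      have hmax : X = v (x 0) ∨ X = v (x 1) ∨ X = v (x 2) := by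
        rcases max_choice (v (x 0)) (max (v (x 1)) (v (x 2))) with h | h
        · exact Or.inl h
        · rcases max_choice (v (x 1)) (v (x 2)) with h' | h'
          · exact Or.inr (Or.inl (h.trans h'))
          · exact Or.inr (Or.inr (h.trans h'))
      rcases hmax with h | h | h
      · calc X ^ 4 = v (x 0) ^ 4 := by rw [h]
          _ ≤ _ := hi 0
      · calc X ^ 4 = v (x 1) ^ 4 := by rw [h]
          _ ≤ _ := hi 1
      · calc X ^ 4 = v (x 2) ^ 4 := by rw [h]
          _ ≤ _ := hi 2
    have hX2 : X ^ 2 ≤ B1 * Y := by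
      rcases hX0.eq_or_lt with h | h
      · rw [← h]
        have := mul_nonneg hB10.le hY0
        simpa using this
      · have h2 : 0 < X ^ 2 := pow_pos h 2
        have h3 : X ^ 2 * X ^ 2 ≤ X ^ 2 * (B1 * Y) := by
          calc X ^ 2 * X ^ 2 = X ^ 4 := by ring
            _ ≤ B1 * (X ^ 2 * Y) := hX4
            _ = X ^ 2 * (B1 * Y) := by ring
        exact le_of_mul_le_mul_left h3 h2
    have hel := elem v c t z X (hxX 0) (hxX 1) (hxX 2)
    have hM0 : 0 ≤ max (v t) (v z) * Mv v c :=
      mul_nonneg ((v.nonneg _).trans (le_max_left _ _)) (Mv_pos v c).le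
    calc max (v t) (v z) ^ 2 * Mv v c ^ 2 = (max (v t) (v z) * Mv v c) ^ 2 := by ring
      _ ≤ (cst v 2 * X) ^ 2 := pow_le_pow_left₀ hM0 hel 2
      _ = cst v 2 ^ 2 * X ^ 2 := by ring
      _ ≤ cst v 2 ^ 2 * (B1 * Y) :=
        mul_le_mul_of_nonneg_left hX2 (pow_nonneg (cst_pos v (by norm_num)).le _)
      _ = cst v 2 ^ 2 * B1 * Y := by ring

end

end Pool.Agent.Helper87.SGB
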